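import Mathlib
import Pool.Agent.H.MP_952ea4_co.A

set_option autoImplicit false
open Finset

namespace Pool.Agent.Results.MP_952ea4_co.No

/-- facets, with a, b, c, d, m, n, o, p, q, r, s, t numbered 0 to 11. -/
def K : List (Finset (Fin 12)) :=
  [{0, 1, 2, 3}, {0, 1, 2, 9}, {0, 2, 3, 9}, {0, 1, 3, 11}, {1, 2, 3, 11}, {0, 1, 4, 9},
    {1, 2, 5, 9}, {2, 3, 6, 9}, {3, 0, 7, 9}, {0, 1, 4, 11}, {1, 2, 5, 11}, {2, 3, 6, 11},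
    {3, 0, 7, 11}, {4, 5, 6, 7}, {4, 5, 6, 8}, {4, 6, 7, 8}, {5, 6, 7, 10}, {4, 5, 7, 10},
    {0, 5, 6, 8}, {1, 6, 7, 8}, {2, 7, 4, 8}, {3, 4, 9, 8}, {0, 5, 6, 10}, {1, 6, 7, 10},
    {2, 7, 4, 10}, {3, 4, 9, 10}]

open Pool.Agent.H.MP_952ea4_co in
theorem result (α : Type) (T : Set (Finset α)) (hT : ∀ σ ∈ T, ∀ τ ⊆ σ, τ ∈ T) (ι : Fin 12 ↪ α)
    (hK : ∀ F ∈ K, F.map ι ∈ T) : ¬ ∃ p : α → EuclideanSpace ℝ (Fin 4),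
      ∀ σ ∈ T, ∃ (u : EuclideanSpace ℝ (Fin 4) →L[ℝ] ℝ) (c : ℝ),
        (∀ v, u (p v) ≤ c) ∧ ∀ v, u (p v) = c ↔ v ∈ σ := by
  rintro ⟨p, h⟩
  refine A.fin (fun i => Fin.cons 1 (p (ι (Fin.ofNat 12 i))).ofLp) (fun _ => rfl) fun t a σ b => ?_
  have k : ∀ t ∈ A.T, (∀ i ∈ t, i < 10) ∧ ∃ F ∈ K, ∀ i ∈ t, Fin.ofNat 12 i ∈ F := by decide
  obtain ⟨k1, F, k2, k3⟩ := k t a
  obtain ⟨u, c, h1, h2⟩ := h ((σ.image (Fin.ofNat 12)).map ι) (hT _ (hK F k2) _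
    (map_subset_map.2 (image_subset_iff.2 fun i x => k3 i (by simpa using b x))))
  refine ⟨c • LinearMap.proj 0 - u.toLinearMap ∘ₗ (WithLp.linearEquiv 2 ℝ _).symm.toLinearMap ∘ₗ
    LinearMap.funLeft ℝ ℝ Fin.succ, fun i hi => ?_⟩
  show 0 ≤ c * 1 - u (p (ι (Fin.ofNat 12 i))) ∧ (c * 1 - u (p (ι (Fin.ofNat 12 i))) = 0 ↔ _)
  refine ⟨by linarith [h1 (ι (Fin.ofNat 12 i))], ?_⟩
  rw [mul_one, sub_eq_zero, eq_comm, h2, mem_map', mem_image]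
  refine ⟨fun ⟨j, x, y⟩ => ?_, fun x => ⟨i, x, rfl⟩⟩
  have := k1 j (by simpa using b x)
  have := congrArg Fin.val y
  simp only [Fin.ofNat] at this
  rwa [show i = j by omega]

end Pool.Agent.Results.MP_952ea4_co.No
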